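import Pool.Agent.MP_ca0a54_nt.H69.GKLA

/-!
Row GKL, second part: bounds for Dirichlet series.
-/

open Complex MeasureTheory Filter Topology

namespace Pool.Agent.MP_ca0a54_nt.H69

open Pool.Agent.MP_ca0a54_nt.H24

/-- `1 + ζ(α)`. -/
noncomputable def Z (α : ℝ) : ℝ := ∑' n : ℕ, Real.exp (-α * Real.log n)

/-- The Dirichlet series on vertical lines, turned by a right angle. -/
noncomputable def DD (d : ℕ → ℂ) (z : ℂ) : ℂ := LSeries d (1 / 2 + I * z)

/-- The reflection of `DD`. -/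
noncomputable def DS (d : ℕ → ℂ) (z : ℂ) : ℂ := (starRingEnd ℂ) (DD d ((starRingEnd ℂ) z))

theorem Z_sum {α : ℝ} (hα : 1 < α) : Summable fun n : ℕ => Real.exp (-α * Real.log n) := by
  have h := Real.summable_nat_rpow.2 (show -α < -1 by linarith)
  rw [← summable_nat_add_iff 1] at h ⊢
  refine h.congr fun n => ?_
  rw [Real.rpow_def_of_pos (by positivity), mul_comm]

theorem Z_ge {α : ℝ} (hα : 1 < α) : 1 ≤ Z α := by
  have := (Z_sum hα).le_tsum 0 fun _ _ => (Real.exp_pos _).le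
  simpa [Z] using this

theorem norm_np (z : ℂ) (n : ℕ) : ‖np z n‖ = Real.exp (-z.re * Real.log n) := by
  rw [np, norm_exp, re_mul_ofReal, neg_re]

theorem np_add (z z' : ℂ) (n : ℕ) : np (z + z') n = np z n * np z' n := by
  unfold np
  rw [← exp_add]
  congr 1
  ring

theorem Bd.np (p : ℂ) (n : ℕ) (a b : ℝ) : Bd (fun z => np (p + I * z) n) a b := by
  refine ⟨?_, Real.exp ((b - p.re) * Real.log n), fun z _ h => ?_⟩
  · unfold H24.np
    fun_prop
  · rw [norm_np]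
    refine Real.exp_le_exp.2 (mul_le_mul_of_nonneg_right ?_ (Real.log_natCast_nonneg n))
    simp
    linarith

theorem Bd.ds (c : ℕ → ℂ) (S : Finset ℕ) (a b : ℝ) : Bd (ds c S) a b :=
  Bd.sum S fun n _ => (Bd.const _ a b).mul (Bd.np _ n a b)

theorem Bd.dp (c : ℕ → ℂ) (N : ℕ) (a b : ℝ) : Bd (dp c N) a b := Bd.ds c _ a b

theorem Bd.rat {γ : ℝ} (hγ : γ ≠ 0) (c₀ : ℝ) (U : Finset ℝ) (ρ v : ℝ → ℝ) :
    Bd (rat c₀ U ρ v) γ γ := by
  refine (Bd.const _ γ γ).add (Bd.sum U fun u _ => ⟨?_, ‖(ρ u : ℂ)‖ / |γ|, fun z h1 h2 => ?_⟩)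
  · refine (differentiableOn_const _).div (by fun_prop) fun z hz h => hγ ?_
    have := congrArg im h
    simp at this
    linarith [hz.1, hz.2]
  · rw [norm_div]
    refine div_le_div_of_nonneg_left (norm_nonneg _) (abs_pos.2 hγ) ?_
    simpa [le_antisymm h2 h1] using abs_im_le_norm (z - v u)

theorem dp_bound {f : ℕ → ℂ} {B a g α : ℝ} {N : ℕ} {z : ℂ} (hα : 1 < α)
    (hf : ∀ n : ℕ, n ≠ 0 → ‖f n‖ ≤ B * Real.exp (a * Real.log n)) (hB : 0 ≤ B) (hg0 : 0 ≤ g)
    (hg : a + z.im + α - 1 / 2 ≤ g) : ‖dp f N z‖ ≤ B * Z α * Real.exp (g * Real.log N) := by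
  have h1 : ∀ n ∈ Finset.Icc 1 N, ‖f n * np (1 / 2 + I * z) n‖ ≤
      B * Real.exp (g * Real.log N) * Real.exp (-α * Real.log n) := by
    intro n hn
    obtain ⟨h2, h3⟩ := Finset.mem_Icc.1 hn
    have h4 : Real.log n ≤ Real.log N :=
      Real.log_le_log (by exact_mod_cast h2) (by exact_mod_cast h3)
    have h5 := Real.log_natCast_nonneg n
    rw [norm_mul, norm_np]
    refine (mul_le_mul_of_nonneg_right (hf n (by omega)) (Real.exp_pos _).le).trans ?_
    rw [mul_assoc, mul_assoc, ← Real.exp_add, ← Real.exp_add]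
    refine mul_le_mul_of_nonneg_left (Real.exp_le_exp.2 ?_) hB
    have h6 : (1 / 2 + I * z).re = 1 / 2 - z.im := by simp [sub_eq_add_neg]
    rw [h6]
    nlinarith [mul_le_mul_of_nonneg_left h4 hg0, mul_le_mul_of_nonneg_right hg h5]
  refine (norm_sum_le_of_le _ h1).trans ?_
  rw [← Finset.mul_sum, mul_right_comm]
  refine mul_le_mul_of_nonneg_right (mul_le_mul_of_nonneg_left ?_ hB) (Real.exp_pos _).le
  exact (Z_sum hα).sum_le_tsum _ fun _ _ => (Real.exp_pos _).le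

theorem term_np (f : ℕ → ℂ) (s : ℂ) {n : ℕ} (hn : n ≠ 0) : LSeries.term f s n = f n * np s n := by
  rw [LSeries.term_of_ne_zero hn, cpow_def_of_ne_zero (by exact_mod_cast hn), np, div_eq_mul_inv,
    ← exp_neg, natCast_log]
  congr 2
  ring

theorem ls_bound {f : ℕ → ℂ} {B a α : ℝ} {s : ℂ} (hα : 1 < α)
    (hf : ∀ n : ℕ, n ≠ 0 → ‖f n‖ ≤ B * Real.exp (a * Real.log n)) (hB : 0 ≤ B)
    (hs : a + α ≤ s.re) : LSeriesSummable f s ∧ ‖LSeries f s‖ ≤ B * Z α := by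
  have h1 : ∀ n : ℕ, ‖LSeries.term f s n‖ ≤ B * Real.exp (-α * Real.log n) := by
    intro n
    rcases eq_or_ne n 0 with rfl | hn
    · simpa using hB
    rw [term_np f s hn, norm_mul, norm_np]
    refine (mul_le_mul_of_nonneg_right (hf n hn) (Real.exp_pos _).le).trans ?_
    rw [mul_assoc, ← Real.exp_add]
    refine mul_le_mul_of_nonneg_left (Real.exp_le_exp.2 ?_) hB
    nlinarith [mul_le_mul_of_nonneg_right hs (Real.log_natCast_nonneg n)]
  exact ⟨((Z_sum hα).mul_left B).of_norm_bounded h1,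
    tsum_of_norm_bounded ((Z_sum hα).hasSum.mul_left B) h1⟩

theorem ls_cut (f : ℕ → ℂ) (N : ℕ) (z : ℂ) :
    LSeriesHasSum (cut f N) (1 / 2 + I * z) (dp f N z) := by
  have h1 : ∀ n ∉ Finset.Icc 1 N, LSeries.term (cut f N) (1 / 2 + I * z) n = 0 := by
    intro n hn
    rcases eq_or_ne n 0 with rfl | h0
    · simp
    have h2 : ¬ n ≤ N := fun h => hn (Finset.mem_Icc.2 ⟨by omega, h⟩)
    rw [term_np _ _ h0, cut, if_neg h2, zero_mul]
  have h2 := hasSum_sum_of_ne_finset_zero (L := SummationFilter.unconditional ℕ) h1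
  have h3 : ∑ n ∈ Finset.Icc 1 N, LSeries.term (cut f N) (1 / 2 + I * z) n = dp f N z := by
    refine Finset.sum_congr rfl fun n hn => ?_
    obtain ⟨h4, h5⟩ := Finset.mem_Icc.1 hn
    rw [term_np _ _ (by omega), cut, if_pos h5]
  rwa [h3] at h2

section
variable {d r : ℕ → ℂ} {B a α c : ℝ} (hα : 1 < α)
  (hd : ∀ n : ℕ, n ≠ 0 → ‖d n‖ ≤ B * Real.exp (a * Real.log n)) (hB : 0 ≤ B)
  (hc : a + α < 1 / 2 + c)
include hα hd hB hc

theorem DD_le {z : ℂ} (hz : z.im ≤ -c) : ‖DD d z‖ ≤ B * Z α :=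
  (ls_bound hα hd hB (by simp; linarith)).2

theorem DD_diff {z : ℂ} (hz : z.im ≤ -c) : DifferentiableAt ℂ (DD d) z := by
  have h1 := (ls_bound (s := ((a + α : ℝ) : ℂ)) hα hd hB (by simp)).1.abscissaOfAbsConv_le
  have h2 : LSeries.abscissaOfAbsConv d < ((1 / 2 + I * z).re : ℝ) := by
    refine h1.trans_lt (EReal.coe_lt_coe_iff.2 ?_)
    simp
    linarith
  exact (LSeries_hasDerivAt h2).differentiableAt.comp z (f := fun z => 1 / 2 + I * z) (by fun_prop)

theorem Bd.DD (γ : ℝ) : Bd (DD d) γ (-c) :=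
  ⟨fun _ hz => (DD_diff hα hd hB hc hz.2).differentiableWithinAt, _,
    fun _ _ hz => DD_le hα hd hB hc hz⟩

theorem DS_le {z : ℂ} (hz : c ≤ z.im) : ‖DS d z‖ ≤ B * Z α := by
  rw [DS, norm_conj]
  exact DD_le hα hd hB hc (by simpa using hz)

theorem Bd.DS (γ : ℝ) : Bd (DS d) c γ := by
  refine ⟨fun z hz => ?_, _, fun _ hz _ => DS_le hα hd hB hc hz⟩
  have h1 := (DD_diff hα hd hB hc (z := (starRingEnd ℂ) z) (by simpa using hz.1)).conj_conj
  rw [conj_conj] at h1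
  exact h1.differentiableWithinAt

end

theorem cv_le {d r : ℕ → ℂ} {B a : ℝ} (N : ℕ)
    (hd : ∀ n : ℕ, n ≠ 0 → ‖d n‖ ≤ B * Real.exp (a * Real.log n)) (hB : 0 ≤ B) (ha : a ≤ 1)
    (hr : ∀ n, ‖r n‖ ≤ 1) (n : ℕ) (hn : n ≠ 0) :
    ‖cv d (cut r N) n‖ ≤ B * Real.exp (2 * Real.log n) := by
  have h0 : (0 : ℝ) < n := by exact_mod_cast Nat.pos_of_ne_zero hn
  have h1 : ∀ i ∈ n.divisors, ‖d i * cut r N (n / i)‖ ≤ B * n := by
    intro i hi
    have h2 := Nat.pos_of_mem_divisors hi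
    have h3 : (i : ℝ) ≤ n := by exact_mod_cast Nat.divisor_le hi
    have h4 : ‖cut r N (n / i)‖ ≤ 1 := by
      unfold cut
      split_ifs
      · exact hr _
      · simp
    have h5 : Real.exp (a * Real.log i) ≤ n := by
      refine le_trans ?_ h3
      rw [← Real.exp_log (show (0 : ℝ) < i by exact_mod_cast h2), Real.log_exp]
      exact Real.exp_le_exp.2 (mul_le_of_le_one_left (Real.log_natCast_nonneg i) ha)
    rw [norm_mul]
    calc _ ≤ B * Real.exp (a * Real.log i) * 1 :=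
          mul_le_mul (hd i h2.ne') h4 (norm_nonneg _) (by positivity)
      _ ≤ _ := by rw [mul_one]; exact mul_le_mul_of_nonneg_left h5 hB
  have h6 : cv d (cut r N) n = ∑ i ∈ n.divisors, d i * cut r N (n / i) := by
    rw [cv, LSeries.convolution_def]
    exact Nat.sum_divisorsAntidiagonal fun x y => d x * cut r N y
  have h7 : (n.divisors.card : ℝ) ≤ n := by exact_mod_cast Nat.card_divisors_le_self n
  have h8 : Real.exp (2 * Real.log n) = n * n := by
    rw [two_mul, Real.exp_add, Real.exp_log h0]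
  rw [h6, h8]
  refine (norm_sum_le_of_le _ h1).trans ?_
  rw [Finset.sum_const, nsmul_eq_mul]
  nlinarith [mul_le_mul_of_nonneg_right h7 (mul_nonneg hB h0.le)]

theorem tail_le {d r : ℕ → ℂ} {B a α Γ : ℝ} (N : ℕ) {N₂ : ℕ} (hα : 1 < α) (hα2 : α ≤ 2)
    (hd : ∀ n : ℕ, n ≠ 0 → ‖d n‖ ≤ B * Real.exp (a * Real.log n)) (hB : 0 ≤ B) (ha : a ≤ 1)
    (hr : ∀ n, ‖r n‖ ≤ 1) (hΓ : 7 / 2 ≤ Γ) (hN : 1 ≤ N₂) {z : ℂ} (hz : z.im = -Γ) :
    ‖DD d z * dp r N z - dp (cv d (cut r N)) N₂ z‖ ≤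
      B * Z α * Real.exp ((7 / 2 - Γ) * Real.log N₂) := by
  have h0 : (1 / 2 + I * z).re = 1 / 2 + Γ := by simp [hz]
  have h1 := (ls_bound (s := 1 / 2 + I * z) hα hd hB (by rw [h0]; linarith)).1
  have h2 := ls_cut r N z
  have h3 := ls_cut (cv d (cut r N)) N₂ z
  have h4 := (h1.LSeriesHasSum.convolution h2).sub h3
  have h5 : ∀ n : ℕ, n ≠ 0 → ‖(cv d (cut r N) - cut (cv d (cut r N)) N₂) n‖ ≤
      B * Real.exp ((7 / 2 - Γ) * Real.log N₂) * Real.exp ((Γ - 3 / 2) * Real.log n) := by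
    intro n hn
    rw [Pi.sub_apply, cut]
    split_ifs with h
    · rw [sub_self, norm_zero]
      positivity
    · have h6 : Real.log N₂ ≤ Real.log n :=
        Real.log_le_log (by exact_mod_cast hN) (by exact_mod_cast (not_le.1 h).le)
      rw [sub_zero, mul_assoc, ← Real.exp_add]
      refine (cv_le N hd hB ha hr n hn).trans
        (mul_le_mul_of_nonneg_left (Real.exp_le_exp.2 ?_) hB)
      nlinarith [mul_le_mul_of_nonneg_left h6 (sub_nonneg.2 hΓ)]
  have h7 := (ls_bound (s := 1 / 2 + I * z) hα h5 (by positivity) (by rw [h0]; linarith)).2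
  rw [h4.LSeries_eq] at h7
  rw [mul_right_comm]
  exact h7

theorem J_ds {ξ Δ : ℝ} {k : ℂ → ℂ} (hk : Ker ξ Δ k) (e : ℕ → ℂ) (S : Finset ℕ) (w : ℂ) {y : ℝ}
    (hy : y ≠ 0) : J k w (ds e S) (w.im + y) =
      ds (fun n => e n * J k 0 (fun ζ => np (0 + I * ζ) n) y) S w := by
  have hi : ∀ n ∈ S, Integrable fun x : ℝ => e n * np (1 / 2 + I * w) n *
      (np (0 + I * (x + y * I)) n * k (x + y * I - 0) / (x + y * I - 0)) := fun n _ =>
    (pp_int ((Bd.np 0 n y y).ga hk 0) (by simpa using hy.symm)).const_mul _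
  have h1 : ds (fun n => e n * J k 0 (fun ζ => np (0 + I * ζ) n) y) S w =
      ∫ x : ℝ, ∑ n ∈ S, e n * np (1 / 2 + I * w) n *
        (np (0 + I * (x + y * I)) n * k (x + y * I - 0) / (x + y * I - 0)) := by
    rw [integral_finsetSum _ hi]
    refine Finset.sum_congr rfl fun n _ => ?_
    rw [integral_const_mul]
    unfold J PP
    ring
  rw [h1]
  unfold J PP
  rw [← integral_add_right_eq_self _ w.re]
  congr 1
  ext x
  have h2 : ((x + w.re : ℝ) : ℂ) + (w.im + y : ℝ) * I = w + (x + y * I) := by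
    apply Complex.ext <;> simp [add_comm]
  simp only [h2, add_sub_cancel_left, sub_zero, zero_add, ds, Finset.sum_mul, Finset.sum_div]
  refine Finset.sum_congr rfl fun n _ => ?_
  rw [mul_add I w, ← add_assoc, np_add]
  ring

theorem chi_le (hm : KmStmt) {ξ Δ L : ℝ} {k : ℂ → ℂ} (hk : Ker ξ Δ k) (hΔ : 0 < Δ) (hL : 1 ≤ L)
    (h2 : ξ + Δ ≤ L) (n : ℕ) :
    ‖J k 0 (fun ζ => np (0 + I * ζ) n) (-1 / L)‖ ≤ 64 * (1 + Real.log (1 + L / Δ)) := by
  have hL0 : 0 < L := by linarith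
  have hy : -1 / L ≠ 0 := (div_neg_of_neg_of_pos (by norm_num) hL0).ne
  have h3 := hm Δ (-1 / L) 0 hΔ hy
  have h4 : 1 / (Δ * |-1 / L|) = L / Δ := by
    rw [abs_div, abs_neg, abs_one, abs_of_pos hL0]
    field_simp
  rw [h4] at h3
  have h5 : 0 ≤ Real.log (1 + L / Δ) := Real.log_nonneg (by have := div_pos hL0 hΔ; linarith)
  have h6 : ∀ x : ℝ, ‖np (0 + I * (x + (-1 / L : ℝ) * I)) n * k (x + (-1 / L : ℝ) * I - 0) /
      (x + (-1 / L : ℝ) * I - 0)‖ ≤ 16 * km Δ ((0 : ℝ) - (x + (-1 / L : ℝ) * I)) := by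
    intro x
    have h7 := hk.b2 (x + (-1 / L : ℝ) * I)
    have h8 : ((x : ℂ) + (-1 / L : ℝ) * I).im = -1 / L := by
      simp only [add_im, ofReal_im, mul_im, ofReal_re, I_im, I_re]
      ring
    have h9 : km Δ ((0 : ℝ) - (x + (-1 / L : ℝ) * I)) = km Δ (x + (-1 / L : ℝ) * I) := by
      simp only [km, ofReal_zero, zero_sub, norm_neg, neg_re, neg_sq]
    have h10 : ‖np (0 + I * (x + (-1 / L : ℝ) * I)) n‖ ≤ 1 := by
      rw [norm_np, zero_add, I_mul_re, neg_neg, h8]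
      exact Real.exp_le_one_iff.2 (mul_nonpos_of_nonpos_of_nonneg
        (div_neg_of_neg_of_pos (by norm_num) hL0).le (Real.log_natCast_nonneg n))
    have h11 : 0 ≤ km Δ (x + (-1 / L : ℝ) * I) := by
      unfold km
      positivity
    have h12 : mx ξ Δ (-1 / L) ≤ Real.exp 1 := by
      refine mx_le ?_ ?_
      · rw [← mul_div_assoc, div_le_one hL0]
        linarith
      · rw [← mul_div_assoc, div_le_one hL0]
        linarith
    have h13 : Real.exp ((-1 / L) ^ 2) ≤ Real.exp 1 := by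
      refine Real.exp_le_exp.2 ?_
      rw [div_pow, div_le_one (by positivity)]
      nlinarith
    have h14 : Real.exp 1 * Real.exp 1 ≤ 8 := by
      nlinarith [Real.exp_one_lt_d9, Real.exp_pos 1]
    have h15 := mx_pos ξ Δ (-1 / L)
    rw [h8] at h7
    rw [h9, sub_zero, mul_div_assoc, norm_mul]
    calc _ ≤ 1 * (2 * Real.exp ((-1 / L) ^ 2) * mx ξ Δ (-1 / L) * km Δ (x + (-1 / L : ℝ) * I)) :=
          mul_le_mul h10 h7 (norm_nonneg _) zero_le_one
      _ ≤ 1 * (2 * Real.exp 1 * Real.exp 1 * km Δ (x + (-1 / L : ℝ) * I)) := by gcongr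
      _ ≤ _ := by nlinarith
  have h16 : ‖J k 0 (fun ζ => np (0 + I * ζ) n) (-1 / L)‖ₑ ≤
      ENNReal.ofReal (64 * (1 + Real.log (1 + L / Δ))) := by
    refine (enorm_integral_le_lintegral_enorm _).trans ?_
    calc _ ≤ ∫⁻ x : ℝ, ENNReal.ofReal 16 *
          ENNReal.ofReal (km Δ ((0 : ℝ) - (x + (-1 / L : ℝ) * I))) := by
          refine lintegral_mono fun x => ?_
          rw [← ENNReal.ofReal_mul (by norm_num), ← ofReal_norm]
          exact ENNReal.ofReal_le_ofReal (h6 x)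
      _ ≤ ENNReal.ofReal 16 * ENNReal.ofReal (4 * (1 + Real.log (1 + L / Δ))) := by
          rw [lintegral_const_mul' _ _ ENNReal.ofReal_ne_top]
          gcongr
      _ = _ := by
          rw [← ENNReal.ofReal_mul (by norm_num)]
          congr 1
          ring
  rw [← ofReal_norm] at h16
  exact (ENNReal.ofReal_le_ofReal_iff (by positivity)).1 h16

theorem rat_conj (c₀ : ℝ) (U : Finset ℝ) (ρ v : ℝ → ℝ) (z : ℂ) :
    (starRingEnd ℂ) (rat c₀ U ρ v ((starRingEnd ℂ) z)) = rat c₀ U ρ v z := by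
  simp [rat]

end Pool.Agent.MP_ca0a54_nt.H69
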