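import Pool.Agent.MP_ca0a54_nt.H69.GKLB

/-!
Row GKL: the contour identity for a rational function times a Dirichlet polynomial.
-/

open Complex MeasureTheory Filter Topology

namespace Pool.Agent.MP_ca0a54_nt.H69

open Pool.Agent.MP_ca0a54_nt.H24

theorem dp_split (e : ℕ → ℂ) {N N₂ : ℕ} (h : N ≤ N₂) (z : ℂ) :
    dp e N₂ z = dp e N z + ds e (Finset.Ioc N N₂) z := by
  unfold dp ds
  rw [← Finset.sum_union]
  · congr 1
    ext n
    simp only [Finset.mem_Icc, Finset.mem_union, Finset.mem_Ioc]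
    omega
  · refine Finset.disjoint_left.2 fun n h1 h2 => ?_
    simp only [Finset.mem_Icc, Finset.mem_Ioc] at h1 h2
    omega

theorem core (hS : ShiftStmt) (hP : PoleStmt) {ξ Δ : ℝ} {k : ℂ → ℂ} (hk : Ker ξ Δ k)
    {c Γ y c₀ : ℝ} {U : Finset ℝ} {ρ v : ℝ → ℝ} {D E : ℂ → ℂ} (e r : ℕ → ℂ) {w : ℂ} {N N₂ : ℕ}
    (hD : Bd D (-Γ) (-c)) (hE : Bd E c Γ) (hw : |w.im| < c) (hΓ : c ≤ Γ) (hw0 : w.im ≠ 0)
    (hy : y < 0) (hy2 : -c ≤ w.im + y) (hN : N ≤ N₂) :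
    2 * Real.pi * I * (rat c₀ U ρ v w * dp r N w - dp e N w) -
      ds (fun n => e n * J k 0 (fun ζ => np (0 + I * ζ) n) y) (Finset.Ioc N N₂) w =
    J k w (fun z => (rat c₀ U ρ v z - D z) * dp r N z) (-c) +
      J k w (fun z => D z * dp r N z - dp e N₂ z) (-Γ) + J k w (dp e N) Γ -
      J k w (fun z => (rat c₀ U ρ v z - E z) * dp r N z) c -
      J k w (fun z => E z * dp r N z) Γ -
      2 * Real.pi * I * ∑ u ∈ U, ρ u * dp r N (v u) * (k (v u - w) / (v u - w)) := by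
  have hc : 0 < c := (abs_nonneg _).trans_lt hw
  obtain ⟨h1, h2⟩ := abs_lt.1 hw
  have i1 := rat_id hk hP (c₀ := c₀) (U := U) (ρ := ρ) (v := v) (Bd.dp r N (-c) c) hw hw0
  have hD' : Bd D (-c) (-c) := hD.mono (by linarith) le_rfl
  have hE' : Bd E c c := hE.mono le_rfl hΓ
  have b1 := ((Bd.rat (γ := -c) (by linarith) c₀ U ρ v).sub hD').mul (Bd.dp r N _ _)
  have b2 := (hD'.mul (Bd.dp r N _ _)).sub (Bd.dp e N₂ _ _)
  have b3 := ((Bd.rat hc.ne' c₀ U ρ v).sub hE').mul (Bd.dp r N _ _)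
  have i2 : J k w (fun z => rat c₀ U ρ v z * dp r N z) (-c) =
      J k w (fun z => (rat c₀ U ρ v z - D z) * dp r N z) (-c) +
        J k w (fun z => D z * dp r N z - dp e N₂ z) (-c) + J k w (dp e N) (-c) +
        J k w (ds e (Finset.Ioc N N₂)) (-c) := by
    rw [← J_add hk b1 b2 h1.ne', ← J_add hk (b1.add b2) (Bd.dp e N _ _) h1.ne',
      ← J_add hk ((b1.add b2).add (Bd.dp e N _ _)) (Bd.ds e _ _ _) h1.ne']
    congr 1
    ext z
    rw [dp_split e hN]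
    ring
  have i3 : J k w (fun z => rat c₀ U ρ v z * dp r N z) c =
      J k w (fun z => (rat c₀ U ρ v z - E z) * dp r N z) c +
        J k w (fun z => E z * dp r N z) c := by
    rw [← J_add hk b3 (hE'.mul (Bd.dp r N _ _)) h2.ne]
    congr 1
    ext z
    ring
  have i4 := J_shift hk (w := w) hS (hE.mul (Bd.dp r N _ _)) hΓ (Or.inl h2)
  have i5 := J_shift hk (w := w) hS ((hD.mul (Bd.dp r N _ _)).sub (Bd.dp e N₂ _ _))
    (by linarith) (Or.inr h1)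
  have i6 := J_pole hk (w := w) hP (Bd.dp e N (-c) Γ) h1 (by linarith)
  have i7 := J_shift hk (w := w) hS (Bd.ds e (Finset.Ioc N N₂) (-c) (w.im + y)) hy2
    (Or.inr (by linarith))
  have i8 := J_ds hk e (Finset.Ioc N N₂) w hy.ne
  linear_combination -i1 + i2 - i3 - i4 - i5 + i6 + i7 + i8

theorem zero_sum {ξ Δ : ℝ} {k : ℂ → ℂ} (hk : Ker ξ Δ k) (hΔ : 0 < Δ) (U : Finset ℝ) (ρ v : ℝ → ℝ)
    (R : ℂ → ℂ) {w : ℂ} (hw : |w.im| ≤ 1 / 40) :
    ‖∑ u ∈ U, ρ u * R (v u) * (k (v u - w) / (v u - w))‖ ≤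
      4 * max (Real.exp (ξ * w.im)) (Real.exp ((ξ + Δ) * w.im)) *
        ∑ u ∈ U, |ρ u| * ‖R (v u)‖ * km Δ (v u - w) := by
  rw [Finset.mul_sum]
  refine norm_sum_le_of_le _ fun u _ => ?_
  have h1 := hk.b2 (v u - w)
  have h2 : ((v u : ℂ) - w).im = -w.im := by simp
  have h3 : Real.exp ((-w.im) ^ 2) ≤ 2 := by
    rw [← Real.exp_log (show (0 : ℝ) < 2 by norm_num)]
    refine Real.exp_le_exp.2 ?_
    have := Real.log_two_gt_d9
    obtain ⟨h4, h5⟩ := abs_le.1 hw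
    nlinarith
  have h6 : mx ξ Δ (-w.im) = max (Real.exp (ξ * w.im)) (Real.exp ((ξ + Δ) * w.im)) := by
    simp only [mx, neg_mul_neg]
  have h7 : 0 ≤ km Δ (v u - w) := by
    unfold km
    positivity
  have h8 := mx_pos ξ Δ (-w.im)
  rw [h2] at h1
  rw [← h6, norm_mul, norm_mul, norm_real, Real.norm_eq_abs]
  calc _ ≤ |ρ u| * ‖R (v u)‖ * (2 * Real.exp ((-w.im) ^ 2) * mx ξ Δ (-w.im) * km Δ (v u - w)) :=
        mul_le_mul_of_nonneg_left h1 (by positivity)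
    _ ≤ |ρ u| * ‖R (v u)‖ * (2 * 2 * mx ξ Δ (-w.im) * km Δ (v u - w)) := by gcongr
    _ = _ := by ring

theorem ev_small (K : ℝ) : ∀ᶠ L : ℝ in atTop,
    K * L ^ 3 * Real.exp (-(2 / 5) * L) ≤ Real.exp (-(1 / 4) * L) := by
  have h := (isLittleO_pow_exp_pos_mul_atTop 3 (b := 3 / 20) (by norm_num)).const_mul_left K
  filter_upwards [h.bound one_pos] with L hL
  rw [one_mul, Real.norm_eq_abs, Real.norm_eq_abs, abs_of_pos (Real.exp_pos _)] at hL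
  refine (mul_le_mul_of_nonneg_right ((le_abs_self _).trans hL) (Real.exp_pos _).le).trans ?_
  rw [← Real.exp_add]
  exact Real.exp_le_exp.2 (le_of_eq (by ring))

theorem fin_le {X Y P E₁ E₂ E₃ E₄ E₅ S : ℂ} {W : ℝ}
    (h : 2 * Real.pi * I * X - 2 * Real.pi * I * Y = E₁ + E₂ + E₃ - E₄ - E₅ - 2 * Real.pi * I * S)
    (hP : P = X - Y) (h1 : ‖E₁‖ ≤ W) (h2 : ‖E₂‖ ≤ W) (h3 : ‖E₃‖ ≤ W) (h4 : ‖E₄‖ ≤ W)
    (h5 : ‖E₅‖ ≤ W) : ‖P‖ ≤ ‖S‖ + 5 * W := by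
  have h6 : 2 * Real.pi * I * (P + S) = E₁ + E₂ + E₃ - E₄ - E₅ := by
    rw [hP]
    linear_combination h
  have h7 : ‖E₁ + E₂ + E₃ - E₄ - E₅‖ ≤ 5 * W := by
    linarith [norm_sub_le (E₁ + E₂ + E₃ - E₄) E₅, norm_sub_le (E₁ + E₂ + E₃) E₄,
      norm_add_le (E₁ + E₂) E₃, norm_add_le E₁ E₂]
  have h8 : ‖2 * Real.pi * I * (P + S)‖ = 2 * Real.pi * ‖P + S‖ := by
    simp [abs_of_pos Real.pi_pos]
  have h9 : ‖P‖ ≤ ‖P + S‖ + ‖S‖ := by simpa using norm_sub_le (P + S) S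
  rw [← h6, h8] at h7
  nlinarith [Real.pi_gt_three, norm_nonneg (P + S)]

theorem nums {ε Γ α c ξ Δ L η a b : ℝ} (hε : 0 < ε) (hε2 : ε ≤ 1 / 2) (hΓ : ε * Γ = ε + 24)
    (hα : α = 1 + ε / 32) (hc : c = 1 / 2 + ε / 8) (hL : 4 ≤ L)
    (hξ : a + ε * L / 4 ≤ ξ) (hΔ : 0 < Δ) (hb : ξ + Δ + ε * L / 4 ≤ b) (hbL : b ≤ L)
    (w1 : -(1 / 40) ≤ η) (w2 : η ≤ 1 / 40) :
    -ξ * (-c - η) ≤ 47 / 80 * L ∧ -(ξ + Δ) * (-c - η) ≤ 47 / 80 * L ∧
    -ξ * (-Γ - η) ≤ (ξ + Δ) * (Γ + η) ∧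
    (7 / 2 - Γ) * b + (ξ + Δ) * (Γ + η) ≤ -(2 / 5) * L ∧
    (Γ + 4) * a + -ξ * (Γ - η) ≤ -(2 / 5) * L ∧ -(ξ + Δ) * (Γ - η) ≤ -ξ * (Γ - η) ∧
    -(ξ + Δ) * (c - η) ≤ -ξ * (c - η) ∧
    -L + (c + α - 1 / 2) * a + -ξ * (c - η) ≤ -(2 / 5) * L := by
  have hΓ2 : 49 ≤ Γ := by nlinarith
  have l1 : 0 < ε * L := by positivity
  have l2 : ε * L * Γ = ε * L + 24 * L := by linear_combination L * hΓ
  have l3 : 0 ≤ ε * L * (η + 1 / 40) := mul_nonneg l1.le (by linarith)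
  have l4 : 0 ≤ ε * L * (1 / 40 - η) := mul_nonneg l1.le (by linarith)
  have p1 : (ξ + Δ) * (c + η) ≤ L * (47 / 80) :=
    mul_le_mul (by linarith) (by linarith) (by linarith) (by linarith)
  have p2 : 0 ≤ Δ * (c + η) := mul_nonneg hΔ.le (by linarith)
  have p3 : 0 ≤ Δ * (Γ + η) := mul_nonneg hΔ.le (by linarith)
  have p4 : (ξ + Δ) * (Γ + η) ≤ (b - ε * L / 4) * (Γ + η) :=
    mul_le_mul_of_nonneg_right (by linarith) (by linarith)
  have p5 : b * (7 / 2 + η) ≤ L * 4 :=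
    mul_le_mul hbL (by linarith) (by linarith) (by linarith)
  have p6 : (a + ε * L / 4) * (Γ - η) ≤ ξ * (Γ - η) := mul_le_mul_of_nonneg_right hξ (by linarith)
  have p7 : a * (4 + η) ≤ L * 5 :=
    mul_le_mul (by linarith) (by linarith) (by linarith) (by linarith)
  have p8 : 0 ≤ Δ * (Γ - η) := mul_nonneg hΔ.le (by linarith)
  have p9 : 0 ≤ Δ * (c - η) := mul_nonneg hΔ.le (by linarith)
  have p10 : a * (c - η) ≤ ξ * (c - η) := mul_le_mul_of_nonneg_right (by linarith) (by linarith)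
  have p11 : a * (α - 1 / 2 + η) ≤ L * (3 / 5) :=
    mul_le_mul (by linarith) (by linarith) (by linarith) (by linarith)
  refine ⟨?_, ?_, ?_, ?_, ?_, ?_, ?_, ?_⟩ <;> linarith

theorem gkl : ShiftStmt → PoleStmt → KerStmt → KmStmt → GklStmt := by
  intro hS hP hK hm
  refine ⟨64, by norm_num, fun ε hε hε2 => ?_⟩
  obtain ⟨Γ, hΓ⟩ : ∃ Γ : ℝ, Γ = 1 + 24 / ε := ⟨_, rfl⟩
  obtain ⟨α, hα⟩ : ∃ α : ℝ, α = 1 + ε / 32 := ⟨_, rfl⟩
  obtain ⟨c, hc⟩ : ∃ c : ℝ, c = 1 / 2 + ε / 8 := ⟨_, rfl⟩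
  have hα1 : 1 < α := by linarith
  have hΓ1 : ε * Γ = ε + 24 := by
    rw [hΓ]
    field_simp
  have hΓ2 : 49 ≤ Γ := by nlinarith
  have hZ := Z_ge hα1
  filter_upwards [Real.tendsto_log_atTop.eventually
    (ev_small (5 * (24 * Real.exp ((Γ + 1) ^ 2) * Z α ^ 2))),
    Real.tendsto_log_atTop.eventually_ge_atTop 4, eventually_gt_atTop 0] with T hT hL hT0
  intro ξ Δ N N₂ hN hξ hΔ hN₂ hNT
  obtain ⟨k, k1, k2, k3, k4⟩ := hK ξ Δ hΔ
  have hk : Ker ξ Δ k := ⟨k1, k2, k3, k4⟩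
  obtain ⟨L, hLT⟩ : ∃ L : ℝ, L = Real.log T := ⟨_, rfl⟩
  rw [← hLT] at hT hL hξ hN₂ ⊢
  have l0 := Real.log_natCast_nonneg N
  have l1 : 0 < ε * L := by positivity
  have l2 : 0 < Real.log N₂ := by linarith
  have l3 : 1 < N₂ := by exact_mod_cast (Real.log_pos_iff (Nat.cast_nonneg N₂)).1 l2
  have l4 : Real.log N₂ ≤ L := by
    rw [hLT]
    exact Real.log_le_log (by exact_mod_cast l3.le.trans_lt' zero_lt_one) hNT
  have l5 : N ≤ N₂ := by
    have := (Real.log_le_log_iff (x := N) (y := N₂) (by exact_mod_cast hN)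
      (by exact_mod_cast l3.le.trans_lt' zero_lt_one)).1 (by linarith)
    exact_mod_cast this
  have hpi : (2 * Real.pi * I : ℂ) ≠ 0 := two_pi_I_ne_zero
  refine ⟨fun n => (2 * Real.pi * I)⁻¹ * J k 0 (fun ζ => np (0 + I * ζ) n) (-1 / L),
    fun n => ?_, fun c₀ U ρ v d r w hr hw0 hw hA => ?_⟩
  · have h1 : ‖(2 * Real.pi * I : ℂ)⁻¹‖ ≤ 1 := by
      rw [norm_inv]
      refine inv_le_one_of_one_le₀ ?_
      simp [abs_of_pos Real.pi_pos]
      linarith [Real.pi_gt_three]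
    rw [norm_mul]
    exact (mul_le_of_le_one_left (norm_nonneg _) h1).trans
      (chi_le hm hk hΔ (by linarith) (by linarith) n)
  obtain ⟨w1, w2⟩ := abs_le.1 hw
  obtain ⟨n1, n2, n3, n4, hup, n6, n7, n8⟩ := nums hε hε2 hΓ1 hα hc hL hξ hΔ hN₂ l4 w1 w2
  have hd : ∀ n : ℕ, n ≠ 0 → ‖d n‖ ≤ L ^ 2 * Real.exp (ε / 16 * Real.log n) :=
    fun n _ => hLT ▸ hA.hd n
  have hB : 0 ≤ L ^ 2 := by positivity
  have hac : ε / 16 + α < 1 / 2 + c := by linarith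
  have hr' : ∀ n : ℕ, n ≠ 0 → ‖r n‖ ≤ 1 * Real.exp (0 * Real.log n) := fun n _ => by
    simpa using hr n
  have he := cv_le N hd hB (by linarith) hr
  have hy : -1 / L < 0 := div_neg_of_neg_of_pos (by norm_num) (by linarith)
  have hy2 : -(1 / 4) ≤ -1 / L := by
    rw [le_div_iff₀ (by linarith)]
    linarith
  have hcore := core hS hP hk (c₀ := c₀) (U := U) (ρ := ρ) (v := v) (cv d (cut r N)) r (w := w)
    (Bd.DD hα1 hd hB hac (-Γ)) (Bd.DS hα1 hd hB hac Γ) (by linarith) (by linarith) hw0 hy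
    (by linarith) l5
  have h0 : ds (fun n => cv d (cut r N) n * J k 0 (fun ζ => np (0 + I * ζ) n) (-1 / L))
      (Finset.Ioc N N₂) w = 2 * Real.pi * I * ds (fun n => cv d (cut r N) n *
        ((2 * Real.pi * I)⁻¹ * J k 0 (fun ζ => np (0 + I * ζ) n) (-1 / L))) (Finset.Ioc N N₂) w := by
    unfold ds
    rw [Finset.mul_sum]
    refine Finset.sum_congr rfl fun n _ => ?_
    field_simp
  rw [h0] at hcore
  have hZL : 0 ≤ Z α ^ 2 * L ^ 3 := by positivity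
  have z1 : L ^ 3 * Z α ≤ Z α ^ 2 * L ^ 3 :=
    (le_mul_of_one_le_right (by positivity) hZ).trans (le_of_eq (by ring))
  have z2 : L ^ 2 * Z α * Z α ≤ Z α ^ 2 * L ^ 3 :=
    (le_mul_of_one_le_right (by positivity) (show 1 ≤ L by linarith)).trans (le_of_eq (by ring))
  have z3 : L ^ 2 * Z α ≤ Z α ^ 2 * L ^ 3 :=
    (le_mul_of_one_le_right (by positivity) hZ).trans z2
  have happ : ∀ x : ℝ, ‖rat c₀ U ρ v (x + (-c : ℝ) * I) - DD d (x + (-c : ℝ) * I)‖ ≤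
      L ^ 3 * Real.exp (-L) * Real.exp ((x - w.re) ^ 2 / 4) := by
    intro x
    have h1 := hA.app x
    have h2 : Real.exp (-L) = T⁻¹ := by rw [Real.exp_neg, hLT, Real.exp_log hT0]
    have h3 : (x : ℂ) + (-c : ℝ) * I = x - c * I := by
      push_cast
      ring
    rw [← hc, ← hLT] at h1
    rw [h2, h3, ← div_eq_mul_inv]
    exact h1
  have e1 : ‖J k w (fun z => (rat c₀ U ρ v z - DD d z) * dp r N z) (-c)‖ ≤
      24 * Real.exp ((Γ + 1) ^ 2) * (Z α ^ 2 * L ^ 3) * Real.exp (-(2 / 5) * L) := by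
    refine J_norm hk (p := -L) (q := 47 / 80 * L) (fun x => ?_) (le_abs.2 (Or.inr (by linarith)))
      (abs_le.2 ⟨by linarith, by linarith⟩) n1 n2 hZL (by linarith)
    have h1 := dp_bound (N := N) (z := x + (-c : ℝ) * I) (g := 0) hα1 hr' zero_le_one le_rfl
      (by simp; linarith)
    rw [zero_mul, Real.exp_zero, one_mul, mul_one] at h1
    rw [norm_mul]
    calc _ ≤ L ^ 3 * Real.exp (-L) * Real.exp ((x - w.re) ^ 2 / 4) * Z α :=
          mul_le_mul (happ x) h1 (norm_nonneg _) (by positivity)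
      _ = L ^ 3 * Z α * Real.exp (-L) * Real.exp ((x - w.re) ^ 2 / 4) := by ring
      _ ≤ _ := by gcongr
  have e2 : ‖J k w (fun z => DD d z * dp r N z - dp (cv d (cut r N)) N₂ z) (-Γ)‖ ≤
      24 * Real.exp ((Γ + 1) ^ 2) * (Z α ^ 2 * L ^ 3) * Real.exp (-(2 / 5) * L) := by
    refine J_norm hk (p := (7 / 2 - Γ) * Real.log N₂) (q := (ξ + Δ) * (Γ + w.im))
      (fun x => le_mul_exp ?_) (le_abs.2 (Or.inr (by linarith)))
      (abs_le.2 ⟨by linarith, by linarith⟩) n3 (le_of_eq (by ring)) hZL n4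
    refine (tail_le N hα1 (by linarith) hd hB (by linarith) hr (Γ := Γ) (by linarith) l3.le
      (by simp)).trans ?_
    gcongr
  have e3 : ‖J k w (dp (cv d (cut r N)) N) Γ‖ ≤
      24 * Real.exp ((Γ + 1) ^ 2) * (Z α ^ 2 * L ^ 3) * Real.exp (-(2 / 5) * L) := by
    refine J_norm hk (fun x => le_mul_exp ?_) (le_abs.2 (Or.inl (by linarith)))
      (abs_le.2 ⟨by linarith, by linarith⟩) le_rfl n6 hZL hup
    refine (dp_bound (g := Γ + 4) hα1 he hB (by linarith) (by simp; linarith)).trans ?_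
    gcongr
  have e4 : ‖J k w (fun z => (rat c₀ U ρ v z - DS d z) * dp r N z) c‖ ≤
      24 * Real.exp ((Γ + 1) ^ 2) * (Z α ^ 2 * L ^ 3) * Real.exp (-(2 / 5) * L) := by
    refine J_norm hk (p := -L + (c + α - 1 / 2) * Real.log N) (q := -ξ * (c - w.im)) (fun x => ?_)
      (le_abs.2 (Or.inl (by linarith))) (abs_le.2 ⟨by linarith, by linarith⟩) le_rfl
      n7 hZL n8
    have h1 := dp_bound (N := N) (z := x + c * I) (g := c + α - 1 / 2) hα1 hr' zero_le_one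
      (by linarith) (by simp)
    have h2 : (starRingEnd ℂ) (x + c * I) = x + (-c : ℝ) * I := by simp
    have h3 : ‖rat c₀ U ρ v (x + c * I) - DS d (x + c * I)‖ =
        ‖rat c₀ U ρ v (x + (-c : ℝ) * I) - DD d (x + (-c : ℝ) * I)‖ := by
      rw [← rat_conj, DS, ← map_sub, norm_conj, h2]
    rw [norm_mul, h3, Real.exp_add]
    calc _ ≤ L ^ 3 * Real.exp (-L) * Real.exp ((x - w.re) ^ 2 / 4) *
          (1 * Z α * Real.exp ((c + α - 1 / 2) * Real.log N)) :=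
          mul_le_mul (happ x) h1 (norm_nonneg _) (by positivity)
      _ = L ^ 3 * Z α * (Real.exp (-L) * Real.exp ((c + α - 1 / 2) * Real.log N)) *
          Real.exp ((x - w.re) ^ 2 / 4) := by ring
      _ ≤ _ := by gcongr
  have e5 : ‖J k w (fun z => DS d z * dp r N z) Γ‖ ≤
      24 * Real.exp ((Γ + 1) ^ 2) * (Z α ^ 2 * L ^ 3) * Real.exp (-(2 / 5) * L) := by
    refine J_norm hk (fun x => le_mul_exp ?_) (le_abs.2 (Or.inl (by linarith)))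
      (abs_le.2 ⟨by linarith, by linarith⟩) le_rfl n6 hZL hup
    have h1 := dp_bound (N := N) (z := x + Γ * I) (g := Γ + 4) hα1 hr' zero_le_one
      (by linarith) (by simp; linarith)
    have h2 := DS_le hα1 hd hB hac (z := x + Γ * I) (by simp; linarith)
    rw [norm_mul]
    calc _ ≤ L ^ 2 * Z α * (1 * Z α * Real.exp ((Γ + 4) * Real.log N)) :=
          mul_le_mul h2 h1 (norm_nonneg _) (by positivity)
      _ = L ^ 2 * Z α * Z α * Real.exp ((Γ + 4) * Real.log N) := by ring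
      _ ≤ _ := by gcongr
  refine (fin_le hcore rfl e1 e2 e3 e4 e5).trans (add_le_add (zero_sum hk hΔ U ρ v _ hw) ?_)
  rw [Real.rpow_def_of_pos hT0, ← hLT, mul_comm L]
  linarith

end Pool.Agent.MP_ca0a54_nt.H69
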