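import Pool.Agent.MP_ca0a54_nt.H29.Spec
import Pool.Agent.MP_ca0a54_nt.H91.SC
import Pool.Agent.MP_ca0a54_nt.L0.ZetaA

/-!
Row RB: the fourth moment of the quotient and the eighth moment of the mollifier.
-/

open Complex MeasureTheory Filter Topology

namespace Pool.Agent.MP_ca0a54_nt.H69

open Pool.Agent.MP_ca0a54_nt.L0 Pool.Agent.MP_ca0a54_nt.H24 Pool.Agent.MP_ca0a54_nt.H29

theorem rb_int_le {f g : ℝ → ℝ} {a b : ℝ} (hab : a ≤ b) (hg : IntervalIntegrable g volume a b)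
    (h0 : ∀ x ∈ Set.Icc a b, 0 ≤ f x) (h : ∀ x ∈ Set.Icc a b, f x ≤ g x) :
    ∫ x in a..b, f x ≤ ∫ x in a..b, g x := by
  by_cases hf : IntervalIntegrable f volume a b
  · exact intervalIntegral.integral_mono_on hab hf hg h
  · rw [intervalIntegral.integral_undef hf]
    exact intervalIntegral.integral_nonneg hab fun x hx => (h0 x hx).trans (h x hx)

theorem rb_avg {V k : ℝ → ℝ} (hV : Continuous V) (hk : Continuous k) (V0 : ∀ x, 0 ≤ V x)
    (k0 : ∀ s, 0 ≤ k s) {a b X p q : ℝ} (hab : a ≤ b) (hX : 0 ≤ X) (hp : p ≤ a - X)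
    (hq : b + X ≤ q) :
    ∫ x in a..b, ∫ s in (-X)..X, V (x + s) * k s ≤
      (∫ x in p..q, V x) * ∫ s in (-X)..X, k s := by
  have hc : Continuous (Function.uncurry fun x s : ℝ => V (x + s) * k s) := by
    show Continuous fun z : ℝ × ℝ => V (z.1 + z.2) * k z.2
    fun_prop
  have hc' : Continuous (Function.uncurry fun s x : ℝ => V (x + s) * k s) := by
    show Continuous fun z : ℝ × ℝ => V (z.2 + z.1) * k z.1
    fun_prop
  have hi : IntegrableOn (Function.uncurry fun x s : ℝ => V (x + s) * k s)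
      (Set.uIoc a b ×ˢ Set.uIoc (-X) X) :=
    (hc.continuousOn.integrableOn_compact (isCompact_uIcc.prod isCompact_uIcc)).mono_set
      (Set.prod_mono Set.uIoc_subset_uIcc Set.uIoc_subset_uIcc)
  rw [intervalIntegral_intervalIntegral_swap hi, ← intervalIntegral.integral_const_mul]
  refine intervalIntegral.integral_mono_on (by linarith)
    ((intervalIntegral.continuous_parametric_intervalIntegral_of_continuous' hc' a b
      ).intervalIntegrable _ _) ((hk.const_mul _).intervalIntegrable _ _) fun s hs => ?_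
  rw [intervalIntegral.integral_mul_const, intervalIntegral.integral_comp_add_right V s]
  refine mul_le_mul_of_nonneg_right ?_ (k0 s)
  exact intervalIntegral.integral_mono_interval (by linarith [hs.1]) (by linarith)
    (by linarith [hs.2]) (Eventually.of_forall V0) (hV.intervalIntegrable _ _)

theorem rb_jensen {g G k : ℝ → ℝ} (hG : Continuous G) (hk : Continuous k) (k0 : ∀ s, 0 ≤ k s)
    {a b μ : ℝ} (hab : a ≤ b) (hμ : 0 < μ) (hkμ : ∫ s in a..b, k s ≤ μ)
    (g0 : ∀ s, 0 ≤ g s) (hg : ∀ s ∈ Set.Icc a b, g s ^ 8 ≤ G s) :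
    (∫ s in a..b, g s * k s) ^ 8 ≤ 2 ^ 8 * μ ^ 7 * ∫ s in a..b, G s * k s := by
  have hW : 0 ≤ ∫ s in a..b, G s * k s := intervalIntegral.integral_nonneg hab fun s hs =>
    mul_nonneg ((pow_nonneg (g0 s) 8).trans (hg s hs)) (k0 s)
  have hA : 0 ≤ ∫ s in a..b, g s * k s := intervalIntegral.integral_nonneg hab fun s _ =>
    mul_nonneg (g0 s) (k0 s)
  rcases hA.eq_or_lt with h0 | hA
  · rw [← h0, zero_pow (by norm_num)]
    positivity
  set A := ∫ s in a..b, g s * k s with hAdef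
  set W := ∫ s in a..b, G s * k s with hWdef
  obtain ⟨l, hl⟩ : ∃ l : ℝ, l = A / (2 * μ) := ⟨_, rfl⟩
  have l0 : 0 < l := by rw [hl]; positivity
  have h1 : A ≤ ∫ s in a..b, (l * k s + (l ^ 7)⁻¹ * (G s * k s)) := by
    refine rb_int_le hab (Continuous.intervalIntegrable (by fun_prop) _ _)
      (fun s _ => mul_nonneg (g0 s) (k0 s)) fun s hs => ?_
    have e : g s ≤ l + (l ^ 7)⁻¹ * G s := by
      rcases le_total (g s) l with h | h
      · have : 0 ≤ (l ^ 7)⁻¹ * G s :=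
          mul_nonneg (by positivity) ((pow_nonneg (g0 s) 8).trans (hg s hs))
        linarith
      · have h7 : l ^ 7 ≤ g s ^ 7 := by gcongr
        have h8 : g s * l ^ 7 ≤ G s := by
          refine le_trans ?_ (hg s hs)
          calc g s * l ^ 7 ≤ g s * g s ^ 7 := mul_le_mul_of_nonneg_left h7 (g0 s)
            _ = g s ^ 8 := by ring
        have : g s ≤ (l ^ 7)⁻¹ * G s := by
          rw [← div_eq_inv_mul, le_div_iff₀ (by positivity)]
          exact h8
        linarith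
    have := mul_le_mul_of_nonneg_right e (k0 s)
    linarith
  rw [intervalIntegral.integral_add (Continuous.intervalIntegrable (by fun_prop) _ _)
    (Continuous.intervalIntegrable (by fun_prop) _ _), intervalIntegral.integral_const_mul,
    intervalIntegral.integral_const_mul, ← hWdef] at h1
  have h2 : l * ∫ s in a..b, k s ≤ A / 2 := by
    refine (mul_le_mul_of_nonneg_left hkμ l0.le).trans (le_of_eq ?_)
    rw [hl]
    field_simp
  have h3 : A / 2 * l ^ 7 ≤ W := by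
    have : A / 2 ≤ W / l ^ 7 := by
      rw [div_eq_inv_mul W]
      linarith
    rwa [le_div_iff₀ (by positivity)] at this
  calc A ^ 8 = 2 ^ 8 * μ ^ 7 * (A / 2 * l ^ 7) := by
        rw [hl]
        field_simp
    _ ≤ 2 ^ 8 * μ ^ 7 * W := by gcongr

theorem rb_km_cont {Δ y : ℝ} (hΔ : 0 < Δ) (hy : y ≠ 0) :
    Continuous fun s : ℝ => km Δ (s - y * I) := by
  have hn : ∀ s : ℝ, ‖(s : ℂ) - y * I‖ ≠ 0 := fun s h => by
    have := congrArg Complex.im (norm_eq_zero.mp h)
    simp at this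
    exact hy this
  unfold km
  refine Continuous.mul (by fun_prop) (Continuous.min ?_ ?_)
  · exact continuous_const.div (by fun_prop) hn
  · exact continuous_const.div (by fun_prop) fun s => mul_ne_zero hΔ.ne' (pow_ne_zero _ (hn s))

theorem rb_km_nonneg {Δ : ℝ} (hΔ : 0 < Δ) (ζ : ℂ) : 0 ≤ km Δ ζ := by
  unfold km
  positivity

theorem rb_km_int {Δ y a b : ℝ} (hΔ : 0 < Δ) (hy : 0 < y) (hab : a ≤ b) :
    ∫ s in a..b, km Δ (s - y * I) ≤ 4 * (1 + Real.log (1 + 1 / (Δ * y))) := by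
  have hc := rb_km_cont hΔ hy.ne'
  have h := H91.kmInt Δ (-y) 0 hΔ (neg_ne_zero.mpr hy.ne')
  rw [abs_neg, abs_of_pos hy] at h
  have e : ∀ s : ℝ, km Δ (((0 : ℝ) : ℂ) - (s + ((-y : ℝ) : ℂ) * I)) = km Δ (s - y * I) := by
    intro s
    have : ((0 : ℝ) : ℂ) - (s + ((-y : ℝ) : ℂ) * I) = -(s - y * I) := by
      push_cast
      ring
    rw [this]
    unfold km
    rw [norm_neg, neg_re, neg_sq]
  simp only [e] at h
  have hl : 0 ≤ Real.log (1 + 1 / (Δ * y)) :=
    Real.log_nonneg (le_add_of_nonneg_right (by positivity))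
  rw [intervalIntegral.integral_of_le hab, ← ENNReal.ofReal_le_ofReal_iff (by positivity),
    ofReal_integral_eq_lintegral_ofReal (hc.integrableOn_Icc.mono_set Set.Ioc_subset_Icc_self)
      (Eventually.of_forall fun s => rb_km_nonneg hΔ _)]
  exact (setLIntegral_le_lintegral _ _).trans h

theorem rb_ne {C T : ℝ} {U : Finset ℝ} {m : ℝ → ℕ} (hZ : Zs C T U m) {w : ℂ}
    (h : |w.re - 3 * T / 2| ≤ T / 8) (hi : w.im < 0) : zf w ≠ 0 := by
  intro h0
  obtain ⟨u, -, hu⟩ := (hZ.zeros w h).mp h0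
  rw [hu, ofReal_im] at hi
  exact lt_irrefl _ hi

/-- Quotients of values of `zf` inside a box. -/
theorem rb_box (seg : SegStmt) {C T Λ x : ℝ} {U : Finset ℝ} {m : ℝ → ℕ} {V : ℝ → ℝ}
    (hZ : Zs C T U m) (hM : Maj T Λ V) (V1 : 1 ≤ V x) (hΛ : 0 < Λ) (hL : 0 < Real.log T)
    (_hT : 0 < T) (hs : Λ / Real.log T ≤ T / 20) (hx : |x - 3 * T / 2| ≤ T / 20) {w w' : ℂ}
    (r1 : |w.re - x| ≤ Λ / Real.log T) (r2 : |w'.re - x| ≤ Λ / Real.log T)
    (i1 : 1 / (Λ * Real.log T) ≤ -w.im) (i2 : 1 / (Λ * Real.log T) ≤ -w'.im)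
    (j1 : -w.im ≤ Λ / Real.log T) (j2 : -w'.im ≤ Λ / Real.log T) {n : ℕ}
    (hn : n * ‖w' - w‖ ≤ Λ / Real.log T) :
    ‖zf w' / zf w‖ ^ n ≤ V x ∧ ‖zf w / zf w'‖ ^ n ≤ V x := by
  rw [abs_le] at hx r1 r2
  have hp : 0 < 1 / (Λ * Real.log T) := by positivity
  have box : ∀ s : ℝ, 0 ≤ s → s ≤ 1 → |(w + s * (w' - w)).re - x| ≤ Λ / Real.log T ∧
      1 / (Λ * Real.log T) ≤ -(w + s * (w' - w)).im ∧
      -(w + s * (w' - w)).im ≤ Λ / Real.log T := by
    intro s s0 s1
    have e1 : (w + s * (w' - w)).re = (1 - s) * w.re + s * w'.re := by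
      simp
      ring
    have e2 : (w + s * (w' - w)).im = (1 - s) * w.im + s * w'.im := by
      simp
      ring
    have s2 : 0 ≤ 1 - s := by linarith
    rw [e1, e2, abs_le]
    refine ⟨⟨?_, ?_⟩, ?_, ?_⟩
    · nlinarith [mul_le_mul_of_nonneg_left r1.1 s2, mul_le_mul_of_nonneg_left r2.1 s0]
    · nlinarith [mul_le_mul_of_nonneg_left r1.2 s2, mul_le_mul_of_nonneg_left r2.2 s0]
    · nlinarith [mul_le_mul_of_nonneg_left i1 s2, mul_le_mul_of_nonneg_left i2 s0]
    · nlinarith [mul_le_mul_of_nonneg_left j1 s2, mul_le_mul_of_nonneg_left j2 s0]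
  have hlV : 0 ≤ Real.log (V x) := Real.log_nonneg V1
  have key := (seg w w' (by linarith) (by linarith) fun s s0 s1 => by
    obtain ⟨b1, b2, -⟩ := box s s0 s1
    rw [abs_le] at b1
    exact rb_ne hZ (abs_le.mpr ⟨by linarith, by linarith⟩) (by linarith)).2
    (Real.log (V x) * Real.log T / Λ) fun s s0 s1 => by
      obtain ⟨b1, b2, b3⟩ := box s s0 s1
      have h1 := hM x (abs_le.mpr hx) _ b1 b2 b3
      rw [← Real.le_log_iff_exp_le (by linarith), div_le_iff₀ hL] at h1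
      rw [le_div_iff₀ hΛ]
      linarith
  have fin : Real.exp (Real.log (V x) * Real.log T / Λ * ‖w' - w‖) ^ n ≤ V x := by
    rw [← Real.exp_nat_mul, ← Real.le_log_iff_exp_le (by linarith)]
    calc n * (Real.log (V x) * Real.log T / Λ * ‖w' - w‖)
        = Real.log (V x) * Real.log T / Λ * (n * ‖w' - w‖) := by ring
      _ ≤ Real.log (V x) * Real.log T / Λ * (Λ / Real.log T) :=
        mul_le_mul_of_nonneg_left hn (by positivity)
      _ = Real.log (V x) := by field_simp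
  exact ⟨(pow_le_pow_left₀ (norm_nonneg _) key.1 n).trans fin,
    (pow_le_pow_left₀ (norm_nonneg _) key.2 n).trans fin⟩

theorem rb : SegStmt → MajStmt → RbStmt := by
  intro seg maj C Y hC hY
  obtain ⟨C₃, hC₃, hev⟩ := maj C (8 * Y) hC (by linarith)
  obtain ⟨μ, hμ⟩ : ∃ μ : ℝ, μ = 4 * (1 + Real.log (1 + 4 * Y)) := ⟨_, rfl⟩
  have μ0 : 0 < μ := by
    have := Real.log_nonneg (show (1 : ℝ) ≤ 1 + 4 * Y by linarith)
    rw [hμ]
    positivity
  refine ⟨C₃ + 2 ^ 7 + 2 ^ 7 * 3 ^ 8 * (2 ^ 8 * μ ^ 7) * (C₃ * μ), ?_, ?_⟩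
  · have : 0 ≤ 2 ^ 7 * 3 ^ 8 * (2 ^ 8 * μ ^ 7) * (C₃ * μ) := by positivity
    linarith
  filter_upwards [hev, eventually_ge_atTop (900 : ℝ),
    Real.tendsto_log_atTop.eventually_ge_atTop (8 * Y)] with T ⟨V, Vc, V1, Vi, hV⟩ hT hL
  intro χ U m ab hZ hR ab0 ab4
  have hM := hV U m hZ
  have Y0 : 0 < Y := by linarith
  have L0 : 0 < Real.log T := by linarith
  have T0 : 0 < T := by linarith
  have hs : 8 * Y / Real.log T ≤ T / 20 := by
    have : 8 * Y / Real.log T ≤ 1 := (div_le_one L0).mpr hL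
    linarith
  have hq : √T ≤ T / 30 := by
    rw [Real.sqrt_le_left (by positivity)]
    nlinarith
  have q0 : 0 ≤ √T := Real.sqrt_nonneg T
  obtain ⟨l, hl⟩ : ∃ l : ℝ, l = 1 / Real.log T := ⟨_, rfl⟩
  have l0 : 0 < l := by rw [hl]; positivity
  have dv : ∀ z : ℝ, z / Real.log T = z * l := fun z => by rw [hl]; ring
  obtain ⟨y, hy⟩ : ∃ y : ℝ, y = 1 / (Y * Real.log T) := ⟨_, rfl⟩
  have y0 : 0 < y := by rw [hy]; positivity
  have y1 : y ≤ l := by
    rw [hy, hl]
    exact one_div_le_one_div_of_le L0 (by nlinarith)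
  have y2 : 1 / (8 * Y * Real.log T) ≤ y := by
    rw [hy]
    exact one_div_le_one_div_of_le (by positivity) (by nlinarith)
  have l1 : l ≤ Y * l := by nlinarith
  have l2 : 7 * l ≤ Y * l := by nlinarith
  have a4 : ab * l ≤ 4 * l := by nlinarith
  have a0 : 0 < ab * l := by positivity
  have hs' : 8 * Y * l ≤ T / 20 := by rwa [dv] at hs
  have hB : ∀ x : ℝ, |x - 3 * T / 2| ≤ T / 20 → ‖BC T Y ab x‖ ^ 4 ≤ V x := by
    intro x hx
    unfold BC Bq
    rw [← hy, dv]
    refine (rb_box seg hZ hM (V1 x) (by positivity) L0 T0 hs hx ?_ ?_ ?_ ?_ ?_ ?_ ?_).2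
    · rw [dv]
      simp
      positivity
    · rw [dv]
      have : ((x : ℂ) - y * I + ((ab * l : ℝ) : ℂ)).re - x = ab * l := by simp
      rw [this, abs_of_pos a0]
      linarith
    · simpa using y2
    · simpa using y2
    · rw [dv]
      have : -((x : ℂ) - y * I).im = y := by simp
      rw [this]
      linarith
    · rw [dv]
      have : -((x : ℂ) - y * I + ((ab * l : ℝ) : ℂ)).im = y := by simp
      rw [this]
      linarith
    · rw [dv, add_sub_cancel_left, norm_real, Real.norm_eq_abs, abs_of_pos a0]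
      push_cast
      linarith
  have hρ : ∀ x : ℝ, |x - 3 * T / 2| ≤ T / 20 →
      ‖rho (Y / Real.log T) (x - ((y + l : ℝ) : ℂ) * I)‖ ^ 8 ≤ V x := by
    intro x hx
    unfold rho
    rw [dv]
    refine (rb_box seg hZ hM (V1 x) (by positivity) L0 T0 hs hx ?_ ?_ ?_ ?_ ?_ ?_ ?_).1
    · rw [dv]
      simp
      positivity
    · rw [dv]
      simp
      positivity
    · have : -((x : ℂ) - ((y + l : ℝ) : ℂ) * I).im = y + l := by simp
      rw [this]
      linarith
    · have : -((x : ℂ) - ((y + l : ℝ) : ℂ) * I - ((Y * l : ℝ) : ℂ) * I).im = y + l + Y * l := by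
        simp
        ring
      rw [this]
      linarith
    · have : -((x : ℂ) - ((y + l : ℝ) : ℂ) * I).im = y + l := by simp
      rw [this, dv]
      linarith
    · have : -((x : ℂ) - ((y + l : ℝ) : ℂ) * I - ((Y * l : ℝ) : ℂ) * I).im = y + l + Y * l := by
        simp
        ring
      rw [this, dv]
      linarith
    · rw [dv, sub_sub_cancel_left, norm_neg, norm_mul, norm_I, norm_real, Real.norm_eq_abs,
        abs_of_pos (by positivity)]
      push_cast
      linarith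
  have hI : ∀ x ∈ Set.Icc (3 * T / 2 - T / 30) (3 * T / 2 + T / 30),
      |x - 3 * T / 2| ≤ T / 30 := fun x hx => abs_le.mpr ⟨by linarith [hx.1], by linarith [hx.2]⟩
  constructor
  · unfold BC Bq
    rw [← hy, dv]
    refine ContinuousOn.div
      (zf_differentiableOn.continuousOn.comp (by fun_prop) fun x hx => ?_)
      (zf_differentiableOn.continuousOn.comp (by fun_prop) fun x hx => ?_) fun x hx => ?_
    · have : ((x : ℂ) - y * I).re = x := by simp
      rw [Set.mem_ofPred_eq, this]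
      linarith [hx.1]
    · have : ((x : ℂ) - y * I + ((ab * l : ℝ) : ℂ)).re = x + ab * l := by simp
      rw [Set.mem_ofPred_eq, this]
      linarith [hx.1]
    · have e1 : ((x : ℂ) - y * I + ((ab * l : ℝ) : ℂ)).re = x + ab * l := by simp
      have e2 : ((x : ℂ) - y * I + ((ab * l : ℝ) : ℂ)).im = -y := by simp
      refine rb_ne hZ ?_ (by rw [e2]; linarith)
      rw [e1, abs_le]
      constructor <;> linarith [hx.1, hx.2]
  have Δ0 : 0 < Real.log T / (4 * Y) := by positivity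
  obtain ⟨k, hk⟩ : ∃ k : ℝ → ℝ, k = fun s : ℝ => km (Real.log T / (4 * Y)) (s - l * I) :=
    ⟨_, rfl⟩
  have kc : Continuous k := by rw [hk]; exact rb_km_cont Δ0 l0.ne'
  have k0 : ∀ s, 0 ≤ k s := fun s => by rw [hk]; exact rb_km_nonneg Δ0 _
  have hX : -(√T / 2) ≤ √T / 2 := by linarith
  have kμ : ∫ s in (-(√T / 2))..(√T / 2), k s ≤ μ := by
    rw [hk]
    refine (rb_km_int Δ0 l0 hX).trans (le_of_eq ?_)
    rw [hμ, hl]
    congr 4
    field_simp
  have Wc : Continuous fun x : ℝ => ∫ s in (-(√T / 2))..(√T / 2), V (x + s) * k s :=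
    intervalIntegral.continuous_parametric_intervalIntegral_of_continuous'
      (show Continuous fun z : ℝ × ℝ => V (z.1 + z.2) * k z.2 by fun_prop) _ _
  have hRC : ∀ x : ℝ, |x - 3 * T / 2| ≤ T / 30 → ‖RC T Y χ x‖ ^ 8 ≤ 2 ^ 7 + 2 ^ 7 * 3 ^ 8 *
      (2 ^ 8 * μ ^ 7) * ∫ s in (-(√T / 2))..(√T / 2), V (x + s) * k s := by
    intro x hx
    have h1 := hR x (hx.trans (by linarith))
    rw [← hy, ← hl] at h1
    have h2 := rb_jensen (g := fun s : ℝ =>
      ‖rho (Y / Real.log T) (((x + s : ℝ) : ℂ) - ((y + l : ℝ) : ℂ) * I)‖)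
      (G := fun s => V (x + s)) (by fun_prop) kc k0 hX μ0 kμ (fun s => norm_nonneg _)
      fun s hs => hρ (x + s) (by
        rw [abs_le] at hx ⊢
        constructor <;> linarith [hs.1, hs.2])
    have h3 : 0 ≤ ∫ s in (-(√T / 2))..(√T / 2),
        ‖rho (Y / Real.log T) (((x + s : ℝ) : ℂ) - ((y + l : ℝ) : ℂ) * I)‖ * k s :=
      intervalIntegral.integral_nonneg hX fun s _ => mul_nonneg (norm_nonneg _) (k0 s)
    have h4 : ‖RC T Y χ x‖ ≤ 1 + 3 * ∫ s in (-(√T / 2))..(√T / 2),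
        ‖rho (Y / Real.log T) (((x + s : ℝ) : ℂ) - ((y + l : ℝ) : ℂ) * I)‖ * k s := by
      rw [hk]
      exact h1
    generalize (∫ s in (-(√T / 2))..(√T / 2),
        ‖rho (Y / Real.log T) (((x + s : ℝ) : ℂ) - ((y + l : ℝ) : ℂ) * I)‖ * k s) = A at h2 h3 h4
    generalize (∫ s in (-(√T / 2))..(√T / 2), V (x + s) * k s) = W at h2 ⊢
    calc ‖RC T Y χ x‖ ^ 8 ≤ (1 + 3 * A) ^ 8 := pow_le_pow_left₀ (norm_nonneg _) h4 8
      _ ≤ 2 ^ (8 - 1) * (1 ^ 8 + (3 * A) ^ 8) := add_pow_le zero_le_one (by positivity) 8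
      _ = 2 ^ 7 + 2 ^ 7 * 3 ^ 8 * A ^ 8 := by ring
      _ ≤ 2 ^ 7 + 2 ^ 7 * 3 ^ 8 * (2 ^ 8 * μ ^ 7 * W) := by gcongr
      _ = _ := by ring
  have hab : 3 * T / 2 - T / 30 ≤ 3 * T / 2 + T / 30 := by linarith
  have V0 : ∀ x, 0 ≤ V x := fun x => zero_le_one.trans (V1 x)
  have m1 := rb_int_le (f := fun x => ‖BC T Y ab x‖ ^ 4 + ‖RC T Y χ x‖ ^ 8)
    (g := fun x => V x + (2 ^ 7 + 2 ^ 7 * 3 ^ 8 * (2 ^ 8 * μ ^ 7) *
      ∫ s in (-(√T / 2))..(√T / 2), V (x + s) * k s)) hab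
    ((Vc.add (continuous_const.add (Wc.const_mul _))).intervalIntegrable _ _)
    (fun x _ => by positivity)
    fun x hx => add_le_add (hB x ((hI x hx).trans (by linarith))) (hRC x (hI x hx))
  refine m1.trans ?_
  rw [intervalIntegral.integral_add (Vc.intervalIntegrable _ _)
      (((Wc.const_mul _).const_add _).intervalIntegrable _ _),
    intervalIntegral.integral_add (continuous_const.intervalIntegrable _ _)
      ((Wc.const_mul _).intervalIntegrable _ _), intervalIntegral.integral_const_mul,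
    intervalIntegral.integral_const, smul_eq_mul]
  have m2 : ∫ x in (3 * T / 2 - T / 30)..(3 * T / 2 + T / 30), V x ≤ C₃ * T :=
    (intervalIntegral.integral_mono_interval (by linarith) hab (by linarith)
      (Eventually.of_forall V0) (Vc.intervalIntegrable _ _)).trans Vi
  have m3 := (rb_avg Vc kc V0 k0 hab (X := √T / 2) (p := T) (q := 2 * T) (by linarith)
    (by linarith) (by linarith)).trans (mul_le_mul Vi kμ
      (intervalIntegral.integral_nonneg hX fun s _ => k0 s) (by positivity))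
  have m4 := mul_le_mul_of_nonneg_left m3
    (show (0 : ℝ) ≤ 2 ^ 7 * 3 ^ 8 * (2 ^ 8 * μ ^ 7) by positivity)
  linarith

end Pool.Agent.MP_ca0a54_nt.H69
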