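import Pool.Agent.MP_ca0a54_nt.H24.Spec

/-!
Row GKL, first part: integrals over horizontal lines.
-/

open Complex MeasureTheory Filter Topology

namespace Pool.Agent.MP_ca0a54_nt.H69

open Pool.Agent.MP_ca0a54_nt.H24

/-- The integral of `H z / (z - v)` over the line `im z = γ`. -/
noncomputable def PP (H : ℂ → ℂ) (v : ℂ) (γ : ℝ) : ℂ :=
  ∫ x : ℝ, H (x + γ * I) / (x + γ * I - v)

/-- Holomorphic with Gaussian decay on a strip. -/
def Ga (H : ℂ → ℂ) (a b t : ℝ) : Prop := DifferentiableOn ℂ H {z | a ≤ z.im ∧ z.im ≤ b} ∧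
  ∃ M : ℝ, ∀ z : ℂ, a ≤ z.im → z.im ≤ b → ‖H z‖ ≤ M * Real.exp (-(z.re - t) ^ 2 / 2)

/-- Holomorphic and bounded on a strip. -/
def Bd (F : ℂ → ℂ) (a b : ℝ) : Prop := DifferentiableOn ℂ F {z | a ≤ z.im ∧ z.im ≤ b} ∧
  ∃ A : ℝ, ∀ z : ℂ, a ≤ z.im → z.im ≤ b → ‖F z‖ ≤ A

/-- The exponential factor in the bound of the kernel. -/
noncomputable def mx (ξ Δ s : ℝ) : ℝ := max (Real.exp (-ξ * s)) (Real.exp (-(ξ + Δ) * s))

/-- The properties of the kernel. -/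
structure Ker (ξ Δ : ℝ) (k : ℂ → ℂ) : Prop where
  diff : Differentiable ℂ k
  k0 : k 0 = 1
  b1 : ∀ ζ : ℂ, ‖k ζ‖ ≤ 2 * Real.exp (ζ.im ^ 2 - ζ.re ^ 2) * mx ξ Δ ζ.im
  b2 : ∀ ζ : ℂ, ‖k ζ / ζ‖ ≤ 2 * Real.exp (ζ.im ^ 2) * mx ξ Δ ζ.im * km Δ ζ

/-- The integral of `F z k(z - w) / (z - w)` over the line `im z = γ`. -/
noncomputable def J (k : ℂ → ℂ) (w : ℂ) (F : ℂ → ℂ) (γ : ℝ) : ℂ :=
  PP (fun z => F z * k (z - w)) w γ

theorem g_int (t : ℝ) : Integrable fun x : ℝ => Real.exp (-(x - t) ^ 2 / 2) := by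
  have h0 : Integrable fun x : ℝ => Real.exp (-(1 / 2 : ℝ) * x ^ 2) :=
    integrable_exp_neg_mul_sq (by norm_num)
  refine (h0.comp_sub_right t).congr (Eventually.of_forall fun x => ?_)
  simp only
  congr 1
  ring

theorem g_val (t : ℝ) : ∫ x : ℝ, Real.exp (-(x - t) ^ 2 / 2) ≤ 3 := by
  have h1 := integral_sub_right_eq_self (μ := volume)
    (fun x : ℝ => Real.exp (-(1 / 2 : ℝ) * x ^ 2)) t
  rw [integral_gaussian] at h1
  have h2 : ∫ x : ℝ, Real.exp (-(x - t) ^ 2 / 2) =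
      ∫ x : ℝ, Real.exp (-(1 / 2 : ℝ) * (x - t) ^ 2) := by
    congr 1
    ext x
    congr 1
    ring
  rw [h2, h1]
  refine Real.sqrt_le_iff.2 ⟨by norm_num, ?_⟩
  have := Real.pi_lt_d2
  linarith

theorem Ga.mono {H : ℂ → ℂ} {a b t a' b' : ℝ} (h : Ga H a b t) (ha : a ≤ a') (hb : b' ≤ b) :
    Ga H a' b' t := by
  obtain ⟨h1, M, h2⟩ := h
  exact ⟨h1.mono fun z hz => ⟨ha.trans hz.1, hz.2.trans hb⟩, M,
    fun z h3 h4 => h2 z (ha.trans h3) (h4.trans hb)⟩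

theorem Bd.mono {F : ℂ → ℂ} {a b a' b' : ℝ} (h : Bd F a b) (ha : a ≤ a') (hb : b' ≤ b) :
    Bd F a' b' := by
  obtain ⟨h1, M, h2⟩ := h
  exact ⟨h1.mono fun z hz => ⟨ha.trans hz.1, hz.2.trans hb⟩, M,
    fun z h3 h4 => h2 z (ha.trans h3) (h4.trans hb)⟩

theorem Bd.const (c : ℂ) (a b : ℝ) : Bd (fun _ => c) a b :=
  ⟨differentiableOn_const c, ‖c‖, fun _ _ _ => le_rfl⟩

theorem Bd.add {F G : ℂ → ℂ} {a b : ℝ} (h : Bd F a b) (g : Bd G a b) :
    Bd (fun z => F z + G z) a b := by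
  obtain ⟨h1, A, h2⟩ := h
  obtain ⟨g1, B, g2⟩ := g
  exact ⟨h1.add g1, A + B,
    fun z h3 h4 => (norm_add_le _ _).trans (add_le_add (h2 z h3 h4) (g2 z h3 h4))⟩

theorem Bd.sub {F G : ℂ → ℂ} {a b : ℝ} (h : Bd F a b) (g : Bd G a b) :
    Bd (fun z => F z - G z) a b := by
  obtain ⟨h1, A, h2⟩ := h
  obtain ⟨g1, B, g2⟩ := g
  exact ⟨h1.sub g1, A + B,
    fun z h3 h4 => (norm_sub_le _ _).trans (add_le_add (h2 z h3 h4) (g2 z h3 h4))⟩

theorem Bd.mul {F G : ℂ → ℂ} {a b : ℝ} (h : Bd F a b) (g : Bd G a b) :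
    Bd (fun z => F z * G z) a b := by
  obtain ⟨h1, A, h2⟩ := h
  obtain ⟨g1, B, g2⟩ := g
  refine ⟨h1.mul g1, A * B, fun z h3 h4 => ?_⟩
  rw [norm_mul]
  exact mul_le_mul (h2 z h3 h4) (g2 z h3 h4) (norm_nonneg _) ((norm_nonneg _).trans (h2 z h3 h4))

theorem Bd.sum {ι : Type*} {f : ι → ℂ → ℂ} {a b : ℝ} (s : Finset ι)
    (h : ∀ i ∈ s, Bd (f i) a b) : Bd (fun z => ∑ i ∈ s, f i z) a b := by
  classical
  induction s using Finset.induction_on with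
  | empty => simpa using Bd.const 0 a b
  | insert i s hi ih =>
    simp only [Finset.sum_insert hi]
    exact (h i (Finset.mem_insert_self _ _)).add
      (ih fun j hj => h j (Finset.mem_insert_of_mem hj))

theorem Ga.int {H : ℂ → ℂ} {γ t : ℝ} (h : Ga H γ γ t) :
    Integrable fun x : ℝ => H (x + γ * I) := by
  obtain ⟨h1, M, h2⟩ := h
  have hc : Continuous fun x : ℝ => H (x + γ * I) :=
    h1.continuousOn.comp_continuous (f := fun x : ℝ => (x : ℂ) + γ * I) (by fun_prop)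
      fun x => by simp
  refine ((g_int t).const_mul M).mono' hc.aestronglyMeasurable (Eventually.of_forall fun x => ?_)
  simpa using h2 (x + γ * I) (by simp) (by simp)

theorem Ga.div {H : ℂ → ℂ} {a b t : ℝ} {v : ℂ} (h : Ga H a b t) (hv : v.im < a ∨ b < v.im) :
    Ga (fun z => H z / (z - v)) a b t := by
  obtain ⟨h1, M, h2⟩ := h
  obtain ⟨δ, hδ, hd⟩ : ∃ δ : ℝ, 0 < δ ∧ ∀ z : ℂ, a ≤ z.im → z.im ≤ b → δ ≤ ‖z - v‖ := by
    rcases hv with hv | hv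
    · refine ⟨a - v.im, by linarith, fun z h3 _ => ?_⟩
      have := (le_abs_self _).trans (abs_im_le_norm (z - v))
      rw [sub_im] at this
      linarith
    · refine ⟨v.im - b, by linarith, fun z _ h4 => ?_⟩
      have := (neg_le_abs _).trans (abs_im_le_norm (z - v))
      rw [sub_im] at this
      linarith
  refine ⟨h1.div (by fun_prop) fun z hz h0 => ?_, M / δ, fun z h3 h4 => ?_⟩
  · have := hd z hz.1 hz.2
    rw [h0, norm_zero] at this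
    linarith
  · rw [norm_div, div_mul_eq_mul_div]
    exact div_le_div₀ ((norm_nonneg _).trans (h2 z h3 h4)) (h2 z h3 h4) hδ (hd z h3 h4)

theorem pp_int {H : ℂ → ℂ} {γ t : ℝ} {v : ℂ} (h : Ga H γ γ t) (hv : v.im ≠ γ) :
    Integrable fun x : ℝ => H (x + γ * I) / (x + γ * I - v) :=
  (h.div (lt_or_gt_of_ne hv)).int

theorem pp_shift (hS : ShiftStmt) {H : ℂ → ℂ} {a b t : ℝ} {v : ℂ} (h : Ga H a b t) (hab : a ≤ b)
    (hv : v.im < a ∨ b < v.im) : PP H v a = PP H v b := by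
  obtain ⟨h1, M, h2⟩ := h.div hv
  exact hS _ a b M t hab h1 h2

theorem pp_pole (hP : PoleStmt) {H : ℂ → ℂ} {a b t : ℝ} {v : ℂ} (h : Ga H a b t) (ha : a < v.im)
    (hb : v.im < b) : PP H v a - PP H v b = 2 * Real.pi * I * H v := by
  obtain ⟨h1, M, h2⟩ := h
  exact hP H a b M t v ha hb h1 h2

theorem pp_norm {H : ℂ → ℂ} {γ t M δ : ℝ} {v : ℂ}
    (h : ∀ x : ℝ, ‖H (x + γ * I)‖ ≤ M * Real.exp (-(x - t) ^ 2 / 2)) (hδ : 0 < δ)
    (hd : δ ≤ |γ - v.im|) : ‖PP H v γ‖ ≤ 3 * (M / δ) := by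
  have hM : 0 ≤ M := by simpa using (norm_nonneg _).trans (h t)
  refine (norm_integral_le_of_norm_le ((g_int t).const_mul (M / δ))
    (Eventually.of_forall fun x => ?_)).trans ?_
  · rw [norm_div, div_mul_eq_mul_div]
    refine div_le_div₀ (by positivity) (h x) hδ (hd.trans ?_)
    simpa using abs_im_le_norm (x + γ * I - v)
  · rw [integral_const_mul, mul_comm]
    exact mul_le_mul_of_nonneg_right (g_val t) (by positivity)

theorem mx_pos (ξ Δ s : ℝ) : 0 < mx ξ Δ s := lt_max_of_lt_left (Real.exp_pos _)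

theorem mx_le {ξ Δ s q : ℝ} (h1 : -ξ * s ≤ q) (h2 : -(ξ + Δ) * s ≤ q) : mx ξ Δ s ≤ Real.exp q :=
  max_le (Real.exp_le_exp.2 h1) (Real.exp_le_exp.2 h2)

theorem Ker.mul_le {ξ Δ : ℝ} {k : ℂ → ℂ} (hk : Ker ξ Δ k) {F : ℂ} {A : ℝ} (w z : ℂ)
    (hF : ‖F‖ ≤ A * Real.exp ((z.re - w.re) ^ 2 / 4)) :
    ‖F * k (z - w)‖ ≤ A * (2 * Real.exp ((z.im - w.im) ^ 2) * mx ξ Δ (z.im - w.im)) *
      Real.exp (-(z.re - w.re) ^ 2 / 2) := by
  have hA : 0 ≤ A := by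
    by_contra hA
    have := mul_neg_of_neg_of_pos (not_le.1 hA) (Real.exp_pos ((z.re - w.re) ^ 2 / 4))
    linarith [norm_nonneg F]
  have h1 := hk.b1 (z - w)
  rw [sub_im, sub_re] at h1
  have h2 : Real.exp ((z.re - w.re) ^ 2 / 4) * Real.exp ((z.im - w.im) ^ 2 - (z.re - w.re) ^ 2) ≤
      Real.exp ((z.im - w.im) ^ 2) * Real.exp (-(z.re - w.re) ^ 2 / 2) := by
    rw [← Real.exp_add, ← Real.exp_add]
    refine Real.exp_le_exp.2 ?_
    nlinarith [sq_nonneg (z.re - w.re)]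
  have h3 := mx_pos ξ Δ (z.im - w.im)
  rw [norm_mul]
  calc ‖F‖ * ‖k (z - w)‖ ≤ A * Real.exp ((z.re - w.re) ^ 2 / 4) *
        (2 * Real.exp ((z.im - w.im) ^ 2 - (z.re - w.re) ^ 2) * mx ξ Δ (z.im - w.im)) :=
        mul_le_mul hF h1 (norm_nonneg _) (by positivity)
    _ = 2 * A * mx ξ Δ (z.im - w.im) * (Real.exp ((z.re - w.re) ^ 2 / 4) *
        Real.exp ((z.im - w.im) ^ 2 - (z.re - w.re) ^ 2)) := by ring
    _ ≤ 2 * A * mx ξ Δ (z.im - w.im) *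
        (Real.exp ((z.im - w.im) ^ 2) * Real.exp (-(z.re - w.re) ^ 2 / 2)) :=
        mul_le_mul_of_nonneg_left h2 (by positivity)
    _ = _ := by ring

theorem le_mul_exp {F : ℂ} {A y : ℝ} (h : ‖F‖ ≤ A) : ‖F‖ ≤ A * Real.exp (y ^ 2 / 4) :=
  h.trans (le_mul_of_one_le_right ((norm_nonneg _).trans h) (Real.one_le_exp (by positivity)))

theorem Bd.ga {ξ Δ : ℝ} {k : ℂ → ℂ} (hk : Ker ξ Δ k) {F : ℂ → ℂ} {a b : ℝ} (h : Bd F a b)
    (w : ℂ) : Ga (fun z => F z * k (z - w)) a b w.re := by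
  obtain ⟨h1, A, h2⟩ := h
  have hc : Continuous fun s : ℝ => 2 * Real.exp ((s - w.im) ^ 2) * mx ξ Δ (s - w.im) := by
    unfold mx
    fun_prop
  obtain ⟨C, hC⟩ := (isCompact_Icc (a := a) (b := b)).exists_bound_of_continuousOn hc.continuousOn
  refine ⟨h1.mul (hk.diff.comp (differentiable_id.sub_const w)).differentiableOn, A * C,
    fun z h3 h4 => (hk.mul_le w z (le_mul_exp (h2 z h3 h4))).trans ?_⟩
  refine mul_le_mul_of_nonneg_right (mul_le_mul_of_nonneg_left ?_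
    ((norm_nonneg _).trans (h2 z h3 h4))) (Real.exp_pos _).le
  exact (le_abs_self _).trans (hC z.im ⟨h3, h4⟩)

section
variable {ξ Δ : ℝ} {k : ℂ → ℂ} (hk : Ker ξ Δ k) {w : ℂ} {F G : ℂ → ℂ}
include hk

theorem J_add {γ : ℝ} (hF : Bd F γ γ) (hG : Bd G γ γ) (hw : w.im ≠ γ) :
    J k w (fun z => F z + G z) γ = J k w F γ + J k w G γ := by
  unfold J PP
  rw [← integral_add (pp_int (hF.ga hk w) hw) (pp_int (hG.ga hk w) hw)]
  congr 1
  ext x
  ring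

theorem J_shift (hS : ShiftStmt) {a b : ℝ} (hF : Bd F a b) (hab : a ≤ b)
    (hw : w.im < a ∨ b < w.im) : J k w F a = J k w F b :=
  pp_shift hS (hF.ga hk w) hab hw

theorem J_pole (hP : PoleStmt) {a b : ℝ} (hF : Bd F a b) (ha : a < w.im) (hb : w.im < b) :
    J k w F a - J k w F b = 2 * Real.pi * I * F w := by
  have := pp_pole hP (hF.ga hk w) ha hb
  simpa [hk.k0, J] using this

theorem J_norm {γ A p q E G : ℝ}
    (hF : ∀ x : ℝ, ‖F (x + γ * I)‖ ≤ A * Real.exp p * Real.exp ((x - w.re) ^ 2 / 4))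
    (h1 : 1 / 4 ≤ |γ - w.im|) (h2 : |γ - w.im| ≤ G) (h3 : -ξ * (γ - w.im) ≤ q)
    (h4 : -(ξ + Δ) * (γ - w.im) ≤ q) (hA : 0 ≤ A) (hE : p + q ≤ E) :
    ‖J k w F γ‖ ≤ 24 * Real.exp (G ^ 2) * A * Real.exp E := by
  have h5 : ∀ x : ℝ, ‖F (x + γ * I) * k (x + γ * I - w)‖ ≤ A * Real.exp p *
      (2 * Real.exp ((γ - w.im) ^ 2) * mx ξ Δ (γ - w.im)) * Real.exp (-(x - w.re) ^ 2 / 2) := by
    intro x
    simpa using hk.mul_le (F := F (x + γ * I)) (A := A * Real.exp p) w (x + γ * I)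
      (by simpa using hF x)
  refine (pp_norm (H := fun z => F z * k (z - w)) h5 (by norm_num) h1).trans ?_
  have h6 : Real.exp ((γ - w.im) ^ 2) ≤ Real.exp (G ^ 2) :=
    Real.exp_le_exp.2 (by rw [← sq_abs]; exact pow_le_pow_left₀ (abs_nonneg _) h2 2)
  have h7 : Real.exp p * mx ξ Δ (γ - w.im) ≤ Real.exp E :=
    (mul_le_mul_of_nonneg_left (mx_le h3 h4) (Real.exp_pos _).le).trans
      (by rw [← Real.exp_add]; exact Real.exp_le_exp.2 hE)
  have h8 := mx_pos ξ Δ (γ - w.im)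
  calc _ = 24 * Real.exp ((γ - w.im) ^ 2) * A * (Real.exp p * mx ξ Δ (γ - w.im)) := by ring
    _ ≤ _ := by gcongr

theorem J_rat {γ c₀ : ℝ} {U : Finset ℝ} {ρ v : ℝ → ℝ} (hF : Bd F γ γ) (hγ : γ ≠ 0)
    (hw : w.im ≠ γ) (hw0 : w.im ≠ 0) :
    J k w (fun z => rat c₀ U ρ v z * F z) γ = rat c₀ U ρ v w * J k w F γ +
      ∑ u ∈ U, ρ u / (v u - w) * PP (fun z => F z * k (z - w)) (v u) γ := by
  have hi : ∀ u ∈ U, Integrable fun x : ℝ => (ρ u : ℂ) / (v u - w) *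
      (F (x + γ * I) * k (x + γ * I - w) / (x + γ * I - v u)) := fun u _ =>
    (pp_int (v := v u) (hF.ga hk w) (by simpa using hγ.symm)).const_mul _
  unfold J PP
  simp only [← integral_const_mul]
  rw [← integral_finsetSum _ hi, ← integral_add ((pp_int (hF.ga hk w) hw).const_mul _)
    (integrable_finsetSum _ hi)]
  congr 1
  ext x
  have h1 : (x : ℂ) + γ * I - w ≠ 0 := fun h => hw (by
    have := congrArg im h
    simp at this
    linarith)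
  have h2 : ∀ u ∈ U, (ρ u : ℂ) / (v u - w) *
      (F (x + γ * I) * k (x + γ * I - w) / (x + γ * I - v u)) =
      (ρ u / (x + γ * I - v u) - ρ u / (w - v u)) *
        (F (x + γ * I) * k (x + γ * I - w) / (x + γ * I - w)) := by
    intro u _
    have h3 : (x : ℂ) + γ * I - v u ≠ 0 := fun h => hγ (by simpa using congrArg im h)
    have h4 : (v u : ℂ) - w ≠ 0 := fun h => hw0 (by simpa using congrArg im h)
    have h5 : w - (v u : ℂ) ≠ 0 := fun h => hw0 (by simpa using congrArg im h)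
    field_simp
    ring
  rw [Finset.sum_congr rfl h2, ← Finset.sum_mul, Finset.sum_sub_distrib]
  unfold rat
  ring

theorem rat_id (hP : PoleStmt) {c c₀ : ℝ} {U : Finset ℝ} {ρ v : ℝ → ℝ} (hF : Bd F (-c) c)
    (hw : |w.im| < c) (hw0 : w.im ≠ 0) :
    J k w (fun z => rat c₀ U ρ v z * F z) (-c : ℝ) - J k w (fun z => rat c₀ U ρ v z * F z) c =
      2 * Real.pi * I * (rat c₀ U ρ v w * F w +
        ∑ u ∈ U, ρ u * F (v u) * (k (v u - w) / (v u - w))) := by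
  have hc : 0 < c := (abs_nonneg _).trans_lt hw
  obtain ⟨h1, h2⟩ := abs_lt.1 hw
  rw [J_rat hk (hF.mono le_rfl (by linarith)) (by linarith) h1.ne' hw0,
    J_rat hk (hF.mono (by linarith) le_rfl) hc.ne' h2.ne hw0]
  have h3 := J_pole hk hP hF h1 h2
  have h4 : ∑ u ∈ U, ρ u / (v u - w) * PP (fun z => F z * k (z - w)) (v u) (-c) -
      ∑ u ∈ U, ρ u / (v u - w) * PP (fun z => F z * k (z - w)) (v u) c =
      2 * Real.pi * I * ∑ u ∈ U, ρ u * F (v u) * (k (v u - w) / (v u - w)) := by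
    rw [← Finset.sum_sub_distrib, Finset.mul_sum]
    refine Finset.sum_congr rfl fun u _ => ?_
    rw [← mul_sub, pp_pole hP (hF.ga hk w) (v := v u) (by simpa using hc) (by simpa using hc)]
    ring
  linear_combination rat c₀ U ρ v w * h3 + h4

end

end Pool.Agent.MP_ca0a54_nt.H69
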